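import Mathlib
import Pool.Agent.Run7.h709.Blocks

/-!
# No pseudo-geometric graph `(q^2+1, q+1, 1)` for `q ≡ 6 (mod 8)`

For `q ≡ 6 (mod 8)` (so that `q` is not a prime power) there is no strongly regular graph with
parameters `((q+1)(q^3+1), q(q^2+1), q-1, q^2+1)`, hence no partial geometry
`(q^2+1, q+1, 1)`, that is, no generalized quadrangle of order `(q, q^2)`.
-/

namespace Pool.Agent.Results.MP_718a21_co.SixModEight

/-- For `q ≡ 6 (mod 8)` there is no pseudo-geometric graph `(q^2+1, q+1, 1)`. -/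
theorem result (q : ℕ) (hq : q % 8 = 6) (V : Type*) [Fintype V] [DecidableEq V]
    (G : SimpleGraph V) [DecidableRel G.Adj] :
    ¬ G.IsSRGWith ((q + 1) * (q ^ 3 + 1)) (q * (q ^ 2 + 1)) (q - 1) (q ^ 2 + 1) := by
  intro hG
  have hV : Nonempty V := by
    rw [← Fintype.card_pos_iff, hG.card]
    positivity
  exact Run7.h709.no_PG (Run7.h709.PG_of_srg (by omega) G hG) hV hq

end Pool.Agent.Results.MP_718a21_co.SixModEight
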